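import Pool.Agent.H217.CF.Spec

/-!
# `S_jensen` and `S_count` (project CF of helper217)
-/

set_option autoImplicit false

namespace Pool.Agent.H181.CF

open Finset Pool.Agent.H217.CF

/-- one factor -/
lemma factor_le {q : ℕ} (hq : 1 ≤ q) {y y₀ : ℝ} (hy₀ : 0 ≤ y₀) :
    1 + q * (Real.exp y - 1) ≤ (1 + q * (Real.exp y₀ - 1)) *
      Real.exp ((q * Real.exp y₀ / (1 + q * (Real.exp y₀ - 1))) * (y - y₀)) := by
  have hq' : (1 : ℝ) ≤ q := by exact_mod_cast hq
  have he : 1 ≤ Real.exp y₀ := Real.one_le_exp hy₀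
  have hF : 0 < 1 + q * (Real.exp y₀ - 1) := by
    have : 0 ≤ (q : ℝ) * (Real.exp y₀ - 1) := mul_nonneg (by linarith) (by linarith)
    linarith
  have hc : 1 ≤ q * Real.exp y₀ / (1 + q * (Real.exp y₀ - 1)) := by
    rw [one_le_div hF]
    linarith
  have h1 := one_add_mul_self_le_rpow_one_add (s := Real.exp (y - y₀) - 1)
    (by linarith [Real.exp_pos (y - y₀)]) hc
  have h2 : (1 + (Real.exp (y - y₀) - 1)) ^ (q * Real.exp y₀ / (1 + q * (Real.exp y₀ - 1))) =
      Real.exp ((q * Real.exp y₀ / (1 + q * (Real.exp y₀ - 1))) * (y - y₀)) := by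
    rw [add_sub_cancel, ← Real.exp_mul, mul_comm]
  rw [h2] at h1
  have h3 := mul_le_mul_of_nonneg_left h1 hF.le
  refine le_trans (le_of_eq ?_) h3
  have h4 : Real.exp y = Real.exp y₀ * Real.exp (y - y₀) := by
    rw [← Real.exp_add]
    congr 1
    ring
  rw [h4]
  field_simp
  ring

theorem s_jensen : S_jensen := by
  intro k q hk p hp hsum z hz
  rcases Nat.eq_zero_or_pos q with rfl | hq
  · simp
  have hk' : (0 : ℝ) < k := by exact_mod_cast hk
  have hy₀ : 0 ≤ z / k := by positivity
  have hq' : (1 : ℝ) ≤ q := by exact_mod_cast hq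
  have he : 1 ≤ Real.exp (z / k) := Real.one_le_exp hy₀
  have hF : 0 < 1 + q * (Real.exp (z / k) - 1) := by
    have : 0 ≤ (q : ℝ) * (Real.exp (z / k) - 1) := mul_nonneg (by linarith) (by linarith)
    linarith
  set c : ℝ := q * Real.exp (z / k) / (1 + q * (Real.exp (z / k) - 1)) with hc
  have hc0 : 0 ≤ c := by
    rw [hc]
    positivity
  have h1 : ∏ a : Fin k, (1 + q * (Real.exp (p a * z) - 1)) ≤
      ∏ a : Fin k, ((1 + q * (Real.exp (z / k) - 1)) * Real.exp (c * (p a * z - z / k))) := by
    apply Finset.prod_le_prod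
    · intro a _
      have h2 : 1 ≤ Real.exp (p a * z) := Real.one_le_exp (mul_nonneg (hp a) hz.le)
      have h3 : 0 ≤ (q : ℝ) * (Real.exp (p a * z) - 1) := mul_nonneg (by linarith) (by linarith)
      linarith
    · intro a _
      exact factor_le hq hy₀
  refine h1.trans ?_
  rw [Finset.prod_mul_distrib, Finset.prod_const, Finset.card_univ, Fintype.card_fin,
    ← Real.exp_sum, ← Finset.mul_sum, Finset.sum_sub_distrib, ← Finset.sum_mul, Finset.sum_const,
    Finset.card_univ, Fintype.card_fin, nsmul_eq_mul]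
  have h4 : (k : ℝ) * (z / k) = z := by field_simp
  rw [h4]
  have h5 : c * ((∑ a, p a) * z - z) ≤ 0 := by
    apply mul_nonpos_of_nonneg_of_nonpos hc0
    have : (∑ a, p a) * z ≤ 1 * z := mul_le_mul_of_nonneg_right hsum hz.le
    linarith
  have h6 : Real.exp (c * ((∑ a, p a) * z - z)) ≤ 1 := Real.exp_le_one_iff.2 h5
  exact mul_le_of_le_one_right (by positivity) h6

/-- number of the maps with given composition -/
lemma card_comp {k q s N : ℕ} (φ : Fin N → Option (Fin k)) (ψ : X q s → Option (Fin k)) :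
    (univ.filter (fun g : X q s → Fin N => (fun x => φ (g x)) = ψ)).card =
      ∏ x, (univ.filter (fun v => φ v = ψ x)).card := by
  rw [← Fintype.card_piFinset]
  congr 1
  ext g
  rw [Fintype.mem_piFinset, Finset.mem_filter]
  simp only [Finset.mem_filter, Finset.mem_univ, true_and]
  exact funext_iff

theorem s_count : S_count := by
  classical
  intro k q s N hN φ
  have hN' : (N : ℝ) ≠ 0 := by
    have : N ≠ 0 := by omega
    exact_mod_cast this
  unfold W
  rw [Finset.mul_sum, Finset.card_filter]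
  push_cast
  rw [← Finset.sum_fiberwise univ (fun g : X q s → Fin N => (fun x => φ (g x)))]
  refine Finset.sum_congr rfl fun ψ _ => ?_
  have h1 : ∑ g ∈ univ.filter (fun g : X q s → Fin N => (fun x => φ (g x)) = ψ),
      (if Proper (fun x => φ (g x)) then (1 : ℝ) else 0) =
      ∑ g ∈ univ.filter (fun g : X q s → Fin N => (fun x => φ (g x)) = ψ),
      (if Proper ψ then (1 : ℝ) else 0) := by
    refine Finset.sum_congr rfl fun g hg => ?_
    rw [(Finset.mem_filter.1 hg).2]
  rw [h1, Finset.sum_const, nsmul_eq_mul, card_comp]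
  split_ifs with h
  · rw [mul_one, Finset.prod_div_distrib, Finset.prod_const, Finset.card_univ, Fintype.card_prod,
      Fintype.card_fin, Fintype.card_fin]
    push_cast
    field_simp
  · simp

end Pool.Agent.H181.CF
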